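import Pool.Agent.Helper35.CWS.StA

/-!
# Project CWS, module EXC: extension over one cell, the continuous formula on the cell
-/

set_option autoImplicit false

namespace Pool.Agent.Helper85.CWS

open Set Topology Metric Pool.Agent.Helper35.CWS

theorem hEXC : StEXC := by
  intro Y _ n N Q ε Ψ hQ hΨ h0
  have hclosed : IsClosed {a : ℝ × (Fin n → ℝ) | ‖a.2‖ + a.1 ≤ 1} :=
    isClosed_le (by fun_prop) continuous_const
  have hcl2 : closure {a : ℝ × (Fin n → ℝ) | ¬ (‖a.2‖ + a.1 ≤ 1)} ⊆ {a | 1 ≤ ‖a.2‖ + a.1} := by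
    apply closure_minimal
    · intro a ha
      exact (not_le.mp ha).le
    · exact isClosed_le continuous_const (by fun_prop)
  have hinv : ∀ T : Set (ℝ × (Fin n → ℝ)), (∀ p ∈ T, 1 / 2 < ‖p.2‖) →
      ContinuousOn (fun p : ℝ × (Fin n → ℝ) => ‖p.2‖⁻¹) T := by
    intro T hT
    refine ContinuousOn.inv₀ (continuous_norm.comp continuous_snd).continuousOn ?_
    intro p hp h
    have := hT p hp
    have h' : ‖p.2‖ = 0 := h
    rw [h'] at this
    norm_num at this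
  refine ContinuousOn.if ?_ ?_ ?_
  · rintro ⟨s, z⟩ ⟨⟨hs, hz, hz2, hzN⟩, hfr⟩
    have h1 : ‖z‖ + s ≤ 1 := by
      have := frontier_subset_closure hfr
      rw [hclosed.closure_eq] at this
      exact this
    have h2 : 1 ≤ ‖z‖ + s := by
      have h3 : (s, z) ∈ closure {a : ℝ × (Fin n → ℝ) | ¬ (‖a.2‖ + a.1 ≤ 1)} := by
        have := hfr
        rw [frontier_eq_closure_inter_closure] at this
        exact this.2
      exact hcl2 h3
    have h3 : ‖z‖ + s = 1 := le_antisymm h1 h2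
    have h4 : s - (1 - ‖z‖) = 0 := by linarith
    simp only [h3, h4, one_mul]
    exact (h0 _ hzN).symm
  · rw [hclosed.closure_eq]
    refine hQ.comp (f := fun p : ℝ × (Fin n → ℝ) => ((‖p.2‖ + p.1) * ‖p.2‖⁻¹) • p.2) ?_ ?_
    · refine ContinuousOn.smul (f := fun p : ℝ × (Fin n → ℝ) => ((‖p.2‖ + p.1) * ‖p.2‖⁻¹))
        (g := fun p => p.2) ?_ continuous_snd.continuousOn
      refine ContinuousOn.mul (f := fun p : ℝ × (Fin n → ℝ) => (‖p.2‖ + p.1))
        (g := fun p => ‖p.2‖⁻¹) ?_ (hinv _ ?_)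
      · exact ((continuous_norm.comp continuous_snd).add continuous_fst).continuousOn
      · rintro ⟨s, z⟩ ⟨⟨hs, hz, hz2, hzN⟩, hp⟩
        exact hz2
    · rintro ⟨s, z⟩ ⟨⟨hs, hz, hz2, hzN⟩, hp⟩
      have hs0 : 0 ≤ s := hs.1
      have hp' : ‖z‖ + s ≤ 1 := hp
      have hz3 : 1 / 2 < ‖z‖ := hz2
      have hzpos : 0 < ‖z‖ := by linarith
      rw [mem_closedBall_zero_iff, norm_smul, norm_mul, norm_inv, norm_norm, mul_assoc,
        inv_mul_cancel₀ hzpos.ne', mul_one, Real.norm_of_nonneg (by linarith)]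
      exact hp'
  · refine hΨ.comp (f := fun p : ℝ × (Fin n → ℝ) => (p.1 - (1 - ‖p.2‖), Q (‖p.2‖⁻¹ • p.2))) ?_ ?_
    · refine ContinuousOn.prodMk
        (continuous_fst.sub (continuous_const.sub (continuous_norm.comp continuous_snd))).continuousOn ?_
      refine hQ.comp (f := fun p : ℝ × (Fin n → ℝ) => ‖p.2‖⁻¹ • p.2) ?_ ?_
      · refine ContinuousOn.smul (f := fun p : ℝ × (Fin n → ℝ) => ‖p.2‖⁻¹)
          (g := fun p => p.2) (hinv _ ?_) continuous_snd.continuousOn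
        rintro ⟨s, z⟩ ⟨⟨hs, hz, hz2, hzN⟩, hp⟩
        exact hz2
      · rintro ⟨s, z⟩ ⟨⟨hs, hz, hz2, hzN⟩, hp⟩
        have hz3 : 1 / 2 < ‖z‖ := hz2
        have hzpos : 0 < ‖z‖ := by linarith
        rw [mem_closedBall_zero_iff, norm_smul, norm_inv, norm_norm, inv_mul_cancel₀ hzpos.ne']
    · rintro ⟨s, z⟩ ⟨⟨hs, hz, hz2, hzN⟩, hp⟩
      have hp' : 1 ≤ ‖z‖ + s := hcl2 hp
      have hs1 : s ≤ ε := hs.2
      have hz1 : ‖z‖ ≤ 1 := by simpa [mem_closedBall_zero_iff] using hz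
      refine ⟨⟨?_, ?_⟩, hzN⟩
      · change 0 ≤ s - (1 - ‖z‖)
        linarith
      · change s - (1 - ‖z‖) ≤ ε
        linarith

end Pool.Agent.Helper85.CWS
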